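import Pool.Agent.H28.BF.Stm

/-!
# Project BF (helper28), module REC: recurrence
-/

set_option autoImplicit false

namespace Pool.Agent.H11.BF

open Finset Pool.Agent.H28.BF

theorem card_int_le {T : Finset ℤ} {l : ℝ} (hl : 0 ≤ l) (h : ∀ s ∈ T, ∀ t ∈ T, (t : ℝ) - s ≤ l) :
    (T.card : ℝ) ≤ l + 1 := by
  rcases T.eq_empty_or_nonempty with rfl | hT
  · simp; linarith
  have h1 : T ⊆ Icc (T.min' hT) (T.max' hT) := fun t ht =>
    mem_Icc.2 ⟨T.min'_le t ht, T.le_max' t ht⟩
  have h2 := card_le_card h1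
  rw [Int.card_Icc] at h2
  have h3 := h _ (T.min'_mem hT) _ (T.max'_mem hT)
  have h4 : T.min' hT ≤ T.max' hT := T.min'_le _ (T.max'_mem hT)
  have h5 : (T.card : ℤ) ≤ T.max' hT + 1 - T.min' hT := by omega
  have h6 : (T.card : ℝ) ≤ (T.max' hT : ℝ) + 1 - T.min' hT := by exact_mod_cast h5
  linarith

theorem card_nat_le {T : Finset ℕ} {l : ℝ} (hl : 0 ≤ l) (h : ∀ s ∈ T, ∀ t ∈ T, (t : ℝ) - s ≤ l) :
    (T.card : ℝ) ≤ l + 1 := by
  have h1 : (T.card : ℝ) = ((T.map Nat.castEmbedding : Finset ℤ).card : ℝ) := by rw [card_map]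
  rw [h1]
  refine card_int_le hl ?_
  intro s hs t ht
  rw [mem_map] at hs ht
  obtain ⟨s', hs', rfl⟩ := hs
  obtain ⟨t', ht', rfl⟩ := ht
  simpa using h s' hs' t' ht'

/-- one residue class -/
theorem class_le {H : Finset ℕ} {N q r : ℕ} {θ κ b : ℝ} (hq : 1 ≤ q) (hκ : 0 ≤ κ)
    (hb : b = q * θ - round ((q : ℝ) * θ)) (hb0 : b ≠ 0) (hH : ∀ h ∈ H, h ≤ N ∧ nd (h * θ) ≤ κ)
    (hr : ∀ h ∈ H, h % q = r) :
    (H.card : ℝ) ≤ (|b| * (N / q) + 2) * (2 * κ / |b| + 1) := by
  have hbp : 0 < |b| := abs_pos.2 hb0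
  have hq0 : (0 : ℝ) < q := by exact_mod_cast hq
  set x : ℕ → ℝ := fun h => r * θ + ((h / q : ℕ) : ℝ) * b with hx
  have hdiv : ∀ h ∈ H, ((h / q : ℕ) : ℝ) ≤ N / q := by
    intro h hh
    rw [le_div_iff₀ hq0]
    have h1 : h / q * q ≤ N := (Nat.div_mul_le_self h q).trans (hH h hh).1
    exact_mod_cast h1
  have hxk : ∀ h ∈ H, |x h - round (x h)| ≤ κ := by
    intro h hh
    refine le_trans ?_ (hH h hh).2
    unfold nd
    have e : h * θ = x h + ((h / q : ℕ) : ℝ) * round ((q : ℝ) * θ) := by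
      have h1 : (h : ℝ) = r + q * ((h / q : ℕ) : ℝ) := by
        have h2 := Nat.mod_add_div h q
        rw [hr h hh] at h2
        exact_mod_cast h2.symm
      simp only [hx]
      rw [hb]
      calc (h : ℝ) * θ = (r + q * ((h / q : ℕ) : ℝ)) * θ := by rw [← h1]
        _ = _ := by ring
    refine (round_le (x h) (round (h * θ) - ((h / q : ℕ) : ℤ) * round ((q : ℝ) * θ))).trans ?_
    refine le_of_eq ?_
    congr 1
    rw [Int.cast_sub, Int.cast_mul, Int.cast_natCast]
    linarith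
  have hcard : (H.card : ℝ) = ∑ m ∈ H.image (fun h => round (x h)),
      ((H.filter fun h => round (x h) = m).card : ℝ) := by
    have := card_eq_sum_card_image (fun h => round (x h)) H
    exact_mod_cast this
  have hfib : ∀ m ∈ H.image (fun h => round (x h)),
      ((H.filter fun h => round (x h) = m).card : ℝ) ≤ 2 * κ / |b| + 1 := by
    intro m _
    have hinj : Set.InjOn (fun h : ℕ => h / q) (H.filter fun h => round (x h) = m : Finset ℕ) := by
      intro h hh h' hh' e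
      rw [mem_coe, mem_filter] at hh hh'
      have e' : h / q = h' / q := e
      rw [← Nat.mod_add_div h q, ← Nat.mod_add_div h' q, hr h hh.1, hr h' hh'.1, e']
    rw [← card_image_of_injOn hinj]
    refine card_nat_le (by positivity) ?_
    intro s hs t ht
    rw [mem_image] at hs ht
    obtain ⟨h, hh, rfl⟩ := hs
    obtain ⟨h', hh', rfl⟩ := ht
    rw [mem_filter] at hh hh'
    have a1 := abs_le.1 (hxk h hh.1)
    have a2 := abs_le.1 (hxk h' hh'.1)
    rw [hh.2] at a1
    rw [hh'.2] at a2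
    rw [le_div_iff₀ hbp]
    have a3 : |(((h' / q : ℕ) : ℝ) - ((h / q : ℕ) : ℝ)) * b| ≤ 2 * κ := by
      have e : (((h' / q : ℕ) : ℝ) - ((h / q : ℕ) : ℝ)) * b = (x h' - m) - (x h - m) := by
        simp only [hx]; ring
      rw [e, abs_le]
      constructor <;> linarith
    rw [abs_mul] at a3
    exact (mul_le_mul_of_nonneg_right (le_abs_self _) hbp.le).trans a3
  have himg : ((H.image (fun h => round (x h))).card : ℝ) ≤ |b| * (N / q) + 2 := by
    have h1 : ((H.image (fun h => round (x h))).card : ℝ) ≤ (|b| * (N / q) + 1) + 1 := by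
      refine card_int_le (by positivity) ?_
      intro s hs t ht
      rw [mem_image] at hs ht
      obtain ⟨h, hh, rfl⟩ := hs
      obtain ⟨h', hh', rfl⟩ := ht
      have a1 := abs_le.1 (abs_sub_round (x h))
      have a2 := abs_le.1 (abs_sub_round (x h'))
      have a3 : x h' - x h ≤ |b| * (N / q) := by
        have e : x h' - x h = (((h' / q : ℕ) : ℝ) - ((h / q : ℕ) : ℝ)) * b := by
          simp only [hx]; ring
        rw [e]
        refine (le_abs_self _).trans ?_
        rw [abs_mul, mul_comm]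
        refine mul_le_mul_of_nonneg_left ?_ hbp.le
        have b1 := hdiv h hh
        have b2 := hdiv h' hh'
        have b3 : (0 : ℝ) ≤ ((h / q : ℕ) : ℝ) := Nat.cast_nonneg _
        have b4 : (0 : ℝ) ≤ ((h' / q : ℕ) : ℝ) := Nat.cast_nonneg _
        rw [abs_le]
        constructor <;> linarith
      linarith
    linarith
  rw [hcard]
  calc ∑ m ∈ H.image (fun h => round (x h)), ((H.filter fun h => round (x h) = m).card : ℝ)
      ≤ ∑ m ∈ H.image (fun h => round (x h)), (2 * κ / |b| + 1) := sum_le_sum hfib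
    _ = ((H.image (fun h => round (x h))).card : ℝ) * (2 * κ / |b| + 1) := by
        rw [sum_const, nsmul_eq_mul]
    _ ≤ _ := mul_le_mul_of_nonneg_right himg (by positivity)

theorem t_REC : S_REC := by
  intro c hc
  set Q0 : ℕ := ⌈2 / c⌉₊ with hQ0
  have hQ0c : 2 / c ≤ (Q0 : ℝ) := Nat.le_ceil _
  have hQ01 : 1 ≤ Q0 := Nat.one_le_ceil_iff.2 (by positivity)
  have hQ01' : (1 : ℝ) ≤ Q0 := by exact_mod_cast hQ01
  set C : ℕ := ⌈8 * Q0 / c⌉₊ + Q0 with hC
  have hCc : 8 * Q0 / c ≤ (C : ℝ) := by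
    rw [hC]; push_cast
    have := Nat.le_ceil (8 * Q0 / c)
    linarith
  refine ⟨C, c / 16, by omega, by positivity, ?_⟩
  intro N θ κ hN hκ hκ0 hcard
  have hNC : (C : ℝ) ≤ N := by exact_mod_cast hN
  have hN0 : (0 : ℝ) < N := by
    have : (1 : ℝ) ≤ C := by exact_mod_cast (by omega : 1 ≤ C)
    linarith
  have hcN : 8 * Q0 ≤ c * N := by
    have h1 : 8 * Q0 / c ≤ N := hCc.trans hNC
    rw [div_le_iff₀ hc] at h1
    linarith
  set H : Finset ℕ := (Icc 1 N).filter (fun h : ℕ => nd (h * θ) ≤ κ) with hH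
  have hHm : ∀ h ∈ H, h ≤ N ∧ nd (h * θ) ≤ κ := by
    intro h hh
    rw [hH, mem_filter, mem_Icc] at hh
    exact ⟨hh.1.2, hh.2⟩
  -- two close elements
  have hpig : ∃ h ∈ H, ∃ h' ∈ H, h ≠ h' ∧ h / Q0 = h' / Q0 := by
    refine exists_ne_map_eq_of_card_lt_of_maps_to (t := range (N / Q0 + 1)) ?_ ?_
    · rw [card_range]
      have h1 : ((N / Q0 + 1 : ℕ) : ℝ) < H.card := by
        push_cast
        have h2 : ((N / Q0 : ℕ) : ℝ) ≤ N / Q0 := Nat.cast_div_le
        have h3 : (N : ℝ) / Q0 ≤ c * N / 2 := by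
          rw [div_le_iff₀ (by linarith)]
          rw [div_le_iff₀ hc] at hQ0c
          nlinarith
        linarith
      exact_mod_cast h1
    · intro h hh
      rw [mem_coe] at hh
      rw [mem_coe, mem_range]
      exact Nat.lt_succ_of_le (Nat.div_le_div_right (hHm h hh).1)
  have hq : ∃ q : ℕ, 1 ≤ q ∧ q ≤ Q0 ∧ nd (q * θ) ≤ 2 * κ := by
    have key : ∀ h ∈ H, ∀ h' ∈ H, h < h' → h / Q0 = h' / Q0 →
        ∃ q : ℕ, 1 ≤ q ∧ q ≤ Q0 ∧ nd (q * θ) ≤ 2 * κ := by
      intro h hh h' hh' hlt he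
      refine ⟨h' - h, by omega, ?_, ?_⟩
      · have e1 := Nat.div_add_mod h Q0
        have e2 := Nat.div_add_mod h' Q0
        have e3 := Nat.mod_lt h' (by omega : Q0 > 0)
        rw [← he] at e2
        omega
      · have e1 : ((h' - h : ℕ) : ℝ) = h' - h := Nat.cast_sub hlt.le
        unfold nd
        rw [e1]
        refine (round_le _ (round ((h' : ℝ) * θ) - round ((h : ℝ) * θ))).trans ?_
        have a1 := abs_le.1 (hHm h hh).2
        have a2 := abs_le.1 (hHm h' hh').2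
        push_cast
        rw [abs_le]
        constructor <;> linarith
    obtain ⟨h, hh, h', hh', hne, he⟩ := hpig
    rcases lt_or_gt_of_ne hne with hlt | hlt
    · exact key h hh h' hh' hlt he
    · exact key h' hh' h hh hlt he.symm
  obtain ⟨q, hq1, hqQ, hqk⟩ := hq
  refine ⟨q, hq1, by omega, ?_⟩
  have hq0 : (0 : ℝ) < q := by exact_mod_cast hq1
  have hqQ' : (q : ℝ) ≤ Q0 := by exact_mod_cast hqQ
  set b : ℝ := q * θ - round ((q : ℝ) * θ) with hb
  have hbn : nd (q * θ) = |b| := rfl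
  rw [hbn] at hqk ⊢
  by_cases hb0 : b = 0
  · rw [hb0, abs_zero]
    positivity
  have hbp : 0 < |b| := abs_pos.2 hb0
  have hsum : (H.card : ℝ) ≤ q * ((|b| * (N / q) + 2) * (2 * κ / |b| + 1)) := by
    have h1 : H.card = ∑ r ∈ range q, (H.filter fun h => h % q = r).card :=
      card_eq_sum_card_fiberwise fun h _ => by
        rw [mem_coe, mem_range]
        exact Nat.mod_lt _ (by omega)
    rw [h1]
    push_cast
    calc ∑ r ∈ range q, ((H.filter fun h => h % q = r).card : ℝ)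
        ≤ ∑ r ∈ range q, (|b| * (N / q) + 2) * (2 * κ / |b| + 1) := by
          refine sum_le_sum fun r _ => ?_
          refine class_le (r := r) hq1 hκ hb hb0 (fun h hh => hHm h (mem_filter.1 hh).1) fun h hh => ?_
          exact (mem_filter.1 hh).2
      _ = _ := by rw [sum_const, card_range, nsmul_eq_mul]
  have hexp : (q : ℝ) * ((|b| * (N / q) + 2) * (2 * κ / |b| + 1)) =
      2 * κ * N + |b| * N + 4 * q * κ / |b| + 2 * q := by
    field_simp
    ring
  rw [hexp] at hsum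
  have h1 : 2 * κ * N + |b| * N ≤ c * N / 4 := by
    have e1 : 2 * κ + |b| ≤ c / 4 := by linarith
    have e2 := mul_le_mul_of_nonneg_right e1 hN0.le
    linarith
  have h2 : 2 * (q : ℝ) ≤ c * N / 4 := by linarith
  have h3 : c * N / 2 ≤ 4 * q * κ / |b| := by linarith
  rw [le_div_iff₀ hbp] at h3
  rw [le_div_iff₀ hN0]
  have h4 : 8 * (q : ℝ) / c ≤ C := by
    refine le_trans ?_ hCc
    exact div_le_div_of_nonneg_right (by linarith) hc.le
  rw [div_le_iff₀ hc] at h4
  have h5 : 8 * (q : ℝ) * κ ≤ C * c * κ := mul_le_mul_of_nonneg_right h4 hκ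
  have h6 : c * (|b| * N) ≤ c * (C * κ) := by linarith
  exact le_of_mul_le_mul_left h6 hc

end Pool.Agent.H11.BF
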